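import Pool.Agent.Lib.MP_b98ad5_an.Path

/-!
# Finite-time blowup for large gamma in the complex Ginzburg-Landau equation

For `u_t = e^{iθ} [Δu + |u|^α u] + γ u` on `ℝᴺ`, every nonzero initial value in `C₀ ∩ H¹`
blows up in finite time for all sufficiently large `γ`.
-/

set_option autoImplicit false
set_option linter.unusedSectionVars false

open scoped ZeroAtInfty SchwartzMap Topology
open Set Filter MeasureTheory

namespace Pool.Agent.Results.MP_b98ad5_an.LargeGammaBlowup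

variable {N : ℕ}

/-- The kernel `G_θ(t)(x) = (4 π t e^{iθ})^{-N/2} e^{-|x|²/(4 t e^{iθ})}` on `ℝᴺ`. -/
noncomputable def kernel (θ t : ℝ) (x : EuclideanSpace ℝ (Fin N)) : ℂ :=
  (4 * Real.pi * t * Complex.exp (θ * Complex.I)) ^ (-((N : ℂ) / 2)) *
    Complex.exp (-(‖x‖ : ℂ) ^ 2 / (4 * t * Complex.exp (θ * Complex.I)))

/-- The semigroup `T_θ(t)`: the identity for `t ≤ 0` and convolution with the kernel
`G_θ(t)` for `t > 0`. -/
noncomputable def evol (θ t : ℝ) (f : EuclideanSpace ℝ (Fin N) → ℂ)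
    (x : EuclideanSpace ℝ (Fin N)) : ℂ :=
  if t ≤ 0 then f x else ∫ y, kernel θ t (x - y) * f y

/-- The right-hand side `e^{iθ} |u|^α u + γ u`. -/
noncomputable def forcing (θ α γ : ℝ) (u : EuclideanSpace ℝ (Fin N) → ℂ)
    (x : EuclideanSpace ℝ (Fin N)) : ℂ :=
  Complex.exp (θ * Complex.I) * (((‖u x‖ ^ α : ℝ) : ℂ) * u x) + (γ : ℂ) * u x

/-- `u ∈ C([0, T), C₀)` and
`u(t) = T_θ(t) u₀ + ∫₀ᵗ T_θ(t - s) [e^{iθ} |u(s)|^α u(s) + γ u(s)] ds` for `0 ≤ t < T`. -/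
def IsMildSolution (θ α γ : ℝ) (u₀ : C₀(EuclideanSpace ℝ (Fin N), ℂ)) (T : ℝ)
    (u : ℝ → C₀(EuclideanSpace ℝ (Fin N), ℂ)) : Prop :=
  ContinuousOn u (Ico 0 T) ∧ ∀ t ∈ Ico 0 T, ∀ x, u t x =
    evol θ t u₀ x + ∫ s in (0 : ℝ)..t, evol θ (t - s) (forcing θ α γ (u s)) x

/-- The maximal existence time: the supremum of all `T` for which a solution exists on
`[0, T)`. -/
noncomputable def maxTime (θ α γ : ℝ) (u₀ : C₀(EuclideanSpace ℝ (Fin N), ℂ)) : ENNReal :=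
  ⨆ (T : ℝ) (_ : ∃ u, IsMildSolution θ α γ u₀ T u), ENNReal.ofReal T

section sobolev

variable {E : Type*} [NormedAddCommGroup E] [InnerProductSpace ℝ E] [FiniteDimensional ℝ E]
  [MeasurableSpace E] [BorelSpace E]

/-- The `L²` function `U` lies in the Sobolev space `H¹` of Mathlib. -/
def L2InH1 (U : Lp ℂ 2 (volume : Measure E)) : Prop :=
  TemperedDistribution.MemSobolev 1 2 (U : 𝓢'(E, ℂ))

/-- `f ∈ H¹`: the function `f` agrees almost everywhere with an `L²` function which lies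
in the Sobolev space `H¹` of Mathlib. -/
def InH1 (f : E → ℂ) : Prop :=
  ∃ U : Lp ℂ 2 (volume : Measure E), f =ᵐ[volume] U ∧ L2InH1 U

end sobolev

open Pool.Agent.Lib.MP_b98ad5_an

/-- The complex number `e^{iθ}`. -/
noncomputable def zed (θ : ℝ) : ℂ := Complex.exp (θ * Complex.I)

lemma zed_norm (θ : ℝ) : ‖zed θ‖ = 1 := Complex.norm_exp_ofReal_mul_I θ

lemma zed_re (θ : ℝ) : (zed θ).re = Real.cos θ := Complex.exp_ofReal_mul_I_re θ

lemma zed_re_pos {θ : ℝ} (h0 : 0 ≤ θ) (h1 : θ < Real.pi / 2) : 0 < (zed θ).re := by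
  rw [zed_re]
  apply Real.cos_pos_of_mem_Ioo
  constructor
  · have := Real.pi_pos
    linarith
  · exact h1

lemma kernel_eq (θ t : ℝ) (x : EuclideanSpace ℝ (Fin N)) : kernel θ t x = kerT (zed θ) t x := by
  unfold kernel kerT zed
  rw [finrank_euclideanSpace_fin]

lemma evol_eq {θ : ℝ} (hz : 0 < (zed θ).re) {t : ℝ} (ht : 0 ≤ t)
    (f : C₀(EuclideanSpace ℝ (Fin N), ℂ)) (x : EuclideanSpace ℝ (Fin N)) :
    evol θ t f x = TC (zed θ) t f x := by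
  unfold evol
  rcases ht.eq_or_lt with h | h
  · rw [if_pos h.symm.le, ← h, TC_zero hz]
  · rw [if_neg (not_le.mpr h), TC_eq_conv hz h]
    simp_rw [kernel_eq]

lemma forcing_eq {θ α γ R : ℝ} (hα : 0 < α) (hR : 0 < R)
    {u : C₀(EuclideanSpace ℝ (Fin N), ℂ)} (hu : ‖u‖ ≤ R) :
    forcing θ α γ u = NN (zed θ) γ (gC hα hR) u := by
  ext x
  have h1 : gC hα hR u x = gs α R (u x) := rfl
  have h2 : NN (zed θ) γ (gC hα hR) u x = zed θ * gC hα hR u x + (γ : ℂ) * u x := rfl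
  rw [h2, h1, gs_eq ((c0_apply_le u x).trans hu)]
  rfl

/-- For functions bounded by `R`, the mild formulation is the Banach space valued Duhamel
formula with the truncated nonlinearity. -/
lemma mild_iff {θ α γ R : ℝ} (hz : 0 < (zed θ).re) (hα : 0 < α) (hR : 0 < R)
    {u₀ : C₀(EuclideanSpace ℝ (Fin N), ℂ)} {t : ℝ} (ht : 0 ≤ t)
    {u : ℝ → C₀(EuclideanSpace ℝ (Fin N), ℂ)} (huc : ContinuousOn u (Icc 0 t))
    (hu : ∀ s ∈ Icc 0 t, ‖u s‖ ≤ R) :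
    (∀ x, u t x = evol θ t u₀ x + ∫ s in (0 : ℝ)..t, evol θ (t - s) (forcing θ α γ (u s)) x) ↔
      u t = TC (zed θ) t u₀ +
        ∫ s in (0 : ℝ)..t, TC (zed θ) (t - s) (NN (zed θ) γ (gC hα hR) (u s)) := by
  have hNc : Continuous (NN (zed θ) γ (gC (E := EuclideanSpace ℝ (Fin N)) hα hR)) :=
    continuous_of_lip (NN_lip (zed θ) γ (gC_lip hα hR))
  have hcont : ContinuousOn
      (fun s => TC (zed θ) (t - s) (NN (zed θ) γ (gC hα hR) (u s))) (Icc 0 t) :=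
    continuousOn_apply_of_strong (TC_norm_le hz) (TC_continuous hz) (by fun_prop)
      (hNc.comp_continuousOn huc)
  have hint := ContinuousOn.intervalIntegrable_of_Icc (μ := volume) ht hcont
  have hkey : ∀ x, (TC (zed θ) t u₀ + ∫ s in (0 : ℝ)..t,
      TC (zed θ) (t - s) (NN (zed θ) γ (gC hα hR) (u s)) :
        C₀(EuclideanSpace ℝ (Fin N), ℂ)) x =
      evol θ t u₀ x + ∫ s in (0 : ℝ)..t, evol θ (t - s) (forcing θ α γ (u s)) x := by
    intro x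
    rw [← ev_apply, map_add, ← ContinuousLinearMap.intervalIntegral_comp_comm _ hint,
      ev_apply, evol_eq hz ht]
    congr 1
    apply intervalIntegral.integral_congr
    intro s hs
    rw [uIcc_of_le ht] at hs
    simp only []
    rw [forcing_eq hα hR (hu s hs), evol_eq hz (by linarith [hs.2]), ev_apply]
  constructor
  · intro h
    ext x
    rw [hkey x]
    exact h x
  · intro h x
    rw [← hkey x, ← h]

lemma exists_bound {T : ℝ} (hT : 0 ≤ T) {u : ℝ → C₀(EuclideanSpace ℝ (Fin N), ℂ)}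
    (hu : ContinuousOn u (Icc 0 T)) : ∃ R : ℝ, 0 < R ∧ ∀ t ∈ Icc 0 T, ‖u t‖ ≤ R := by
  obtain ⟨t₀, -, ht₀⟩ := isCompact_Icc.exists_isMaxOn ⟨0, left_mem_Icc.mpr hT⟩ hu.norm
  exact ⟨‖u t₀‖ + 1, by positivity, fun t ht => (ht₀ ht).trans (by linarith)⟩

/-- Solutions are unique. -/
theorem mild_solution_unique {θ α γ : ℝ} (hθ0 : 0 ≤ θ) (hθ1 : θ < Real.pi / 2) (hα : 0 < α)
    {u₀ : C₀(EuclideanSpace ℝ (Fin N), ℂ)} {T : ℝ}
    {u v : ℝ → C₀(EuclideanSpace ℝ (Fin N), ℂ)} (hu : IsMildSolution θ α γ u₀ T u)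
    (hv : IsMildSolution θ α γ u₀ T v) : ∀ t ∈ Ico 0 T, u t = v t := by
  intro t ht
  have hz := zed_re_pos hθ0 hθ1
  have hsub : Icc 0 t ⊆ Ico 0 T := fun s hs => ⟨hs.1, hs.2.trans_lt ht.2⟩
  obtain ⟨R₁, hR₁, hb₁⟩ := exists_bound ht.1 (hu.1.mono hsub)
  obtain ⟨R₂, hR₂, hb₂⟩ := exists_bound ht.1 (hv.1.mono hsub)
  have hR : 0 < max R₁ R₂ := lt_max_of_lt_left hR₁
  have key : ∀ w, IsMildSolution θ α γ u₀ T w → (∀ s ∈ Icc 0 t, ‖w s‖ ≤ max R₁ R₂) →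
      ∀ s ∈ Icc 0 t, w s = TC (zed θ) s u₀ +
        ∫ r in (0 : ℝ)..s, TC (zed θ) (s - r) (NN (zed θ) γ (gC hα hR) (w r)) := by
    intro w hw hbw s hs
    have hsub' : Icc 0 s ⊆ Icc 0 t := Icc_subset_Icc_right hs.2
    exact (mild_iff hz hα hR hs.1 (hw.1.mono (hsub'.trans hsub))
      (fun r hr => hbw r (hsub' hr))).mp (hw.2 s (hsub hs))
  have hL0 : 0 ≤ ‖zed θ‖ * Lg α (max R₁ R₂) + |γ| := by
    have := Lg_nonneg hα hR
    positivity
  exact mild_unique (isSG_TC hz) (NN_lip (zed θ) γ (gC_lip hα hR)) u₀ (CK_nonneg _)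
    hL0 (hu.1.mono hsub) (hv.1.mono hsub)
    (key u hu fun s hs => (hb₁ s hs).trans (le_max_left _ _))
    (key v hv fun s hs => (hb₂ s hs).trans (le_max_right _ _)) t (right_mem_Icc.mpr ht.1)

/-- Local existence: the maximal existence time is positive. -/
theorem maxTime_pos {θ α γ : ℝ} (hθ0 : 0 ≤ θ) (hθ1 : θ < Real.pi / 2) (hα : 0 < α)
    (u₀ : C₀(EuclideanSpace ℝ (Fin N), ℂ)) : 0 < maxTime θ α γ u₀ := by
  have hz := zed_re_pos hθ0 hθ1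
  have hR : 0 < ‖u₀‖ + 1 := by positivity
  have hL0 : 0 ≤ ‖zed θ‖ * Lg α (‖u₀‖ + 1) + |γ| := by
    have := Lg_nonneg hα hR
    positivity
  obtain ⟨w, hwc, hw⟩ := mild_exists (isSG_TC (E := EuclideanSpace ℝ (Fin N)) hz)
    (NN_lip (zed θ) γ (gC_lip hα hR)) u₀ (zero_le_one' ℝ) (CK_nonneg _) hL0
  have hw0 : w 0 = u₀ := by
    rw [hw 0 (left_mem_Icc.mpr zero_le_one), TC_zero hz]; simp
  have hev : ∀ᶠ s in 𝓝 (0 : ℝ), ‖w s‖ < ‖u₀‖ + 1 := by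
    apply (hwc.norm.tendsto 0).eventually (gt_mem_nhds _)
    rw [hw0]; linarith
  obtain ⟨ε, hε, hball⟩ := Metric.eventually_nhds_iff.mp hev
  set T := min ε 1 with hT
  have hTpos : 0 < T := lt_min hε one_pos
  have hsol : IsMildSolution θ α γ u₀ T w := by
    refine ⟨hwc.continuousOn, fun t ht => ?_⟩
    refine (mild_iff hz hα hR ht.1 hwc.continuousOn (fun s hs => ?_)).mpr
      (hw t ⟨ht.1, ht.2.le.trans (min_le_right _ _)⟩)
    apply (hball _).le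
    rw [Real.dist_eq, sub_zero, abs_of_nonneg hs.1]
    exact (hs.2.trans_lt ht.2).trans_le (min_le_left _ _)
  refine lt_of_lt_of_le (ENNReal.ofReal_pos.mpr hTpos) ?_
  unfold maxTime
  exact le_iSup₂_of_le T ⟨w, hsol⟩ le_rfl

/-- **Blowup for large `γ`.** Let `N ≥ 1`, `α > 0` and `0 ≤ θ < π / 2`. For every nonzero
`u₀ ∈ C₀(ℝᴺ) ∩ H¹(ℝᴺ)` there is `γ₀ > 0` such that for every `γ > γ₀` the maximal solution of
`u_t = e^{iθ} [Δu + |u|^α u] + γ u`, `u(0) = u₀`, blows up in finite time. -/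
theorem result (N : ℕ) (_hN : 1 ≤ N) (α θ : ℝ) (hα : 0 < α) (hθ0 : 0 ≤ θ)
    (hθ1 : θ < Real.pi / 2) (u₀ : C₀(EuclideanSpace ℝ (Fin N), ℂ)) (hu₀ : u₀ ≠ 0)
    (hH1 : InH1 u₀) :
    ∃ γ₀ : ℝ, 0 < γ₀ ∧ ∀ γ : ℝ, γ₀ < γ → maxTime θ α γ u₀ < ⊤ := by
  have hz := zed_re_pos hθ0 hθ1
  obtain ⟨U, hU, hS⟩ := hH1
  have hU0 : U ≠ 0 := by
    rintro rfl
    apply hu₀
    have h1 : (u₀ : EuclideanSpace ℝ (Fin N) → ℂ) =ᵐ[volume] fun _ => (0 : ℂ) := by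
      filter_upwards [hU, Lp.coeFn_zero ℂ 2
        (volume : Measure (EuclideanSpace ℝ (Fin N)))] with x h1 h2
      rw [h1, h2]; rfl
    have h2 := (Continuous.ae_eq_iff_eq volume (map_continuous u₀) continuous_const).mp h1
    ext x
    exact congrFun h2 x
  obtain ⟨D, hD0, hD⟩ := exists_D hS
  obtain ⟨ψ, K₁, K₂, C₁, hK₁, hK₂, hp, hψ, hψ1, hψ2, hψA⟩ := exists_psi hU0
  obtain ⟨κ₀, hκ₀, hbound⟩ := blowup_bound (H := L2 (EuclideanSpace ℝ (Fin N))) hz (zed_norm θ)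
    hα (D := D) (F₀ := ‖U‖ ^ 2) (p₀ := ‖inner ℂ ψ U‖) (C₁ := C₁)
    (C₂ := K₁ + K₂ * (α + 2))
    (φ₀ := ‖inner ℂ ψ U‖ * (‖inner ℂ ψ U‖ / (4 * K₁)) ^ (α + 1) / (4 * K₂ * (α + 2)))
    hD0 (by positivity) hp (by positivity)
  refine ⟨κ₀ / α, by positivity, fun γ hγ => ?_⟩
  have hγ0 : 0 < γ := lt_trans (by positivity) hγ
  have hκ : κ₀ ≤ α * γ := by
    rw [div_lt_iff₀ hα] at hγ
    linarith
  obtain ⟨Tm, hTm⟩ := hbound (α * γ) hκ
  refine lt_of_le_of_lt (b := ENNReal.ofReal Tm) ?_ ENNReal.ofReal_lt_top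
  unfold maxTime
  refine iSup₂_le fun T hT => ?_
  obtain ⟨u, huc, hu⟩ := hT
  rcases le_or_gt T 0 with hT0 | hT0
  · rw [ENNReal.ofReal_of_nonpos hT0]
    exact zero_le
  apply ENNReal.ofReal_le_ofReal
  apply le_of_forall_lt
  intro S hS'
  obtain ⟨T', hT'1, hT'2⟩ := exists_between (max_lt hS' hT0)
  have hT'0 : 0 ≤ T' := ((le_max_right _ _).trans_lt hT'1).le
  refine lt_of_lt_of_le ((le_max_left _ _).trans_lt hT'1) ?_
  have hsub : Icc 0 T' ⊆ Ico 0 T := fun s hs => ⟨hs.1, hs.2.trans_lt hT'2⟩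
  obtain ⟨R, hR, hb⟩ := exists_bound hT'0 (huc.mono hsub)
  have hmild : ∀ t ∈ Icc 0 T', u t = TC (zed θ) t u₀ +
      ∫ s in (0 : ℝ)..t, TC (zed θ) (t - s) (NN (zed θ) γ (gC hα hR) (u s)) := by
    intro t ht
    have hsub' : Icc 0 t ⊆ Icc 0 T' := Icc_subset_Icc_right ht.2
    exact (mild_iff hz hα hR ht.1 (huc.mono (hsub'.trans hsub))
      (fun r hr => hb r (hsub' hr))).mp (hu t (hsub ht))
  obtain ⟨w, hwc, hwu, hw⟩ := pair_solution hz γ hα hR hU hT'0 (huc.mono hsub) hmild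
  have hwR : ∀ t ∈ Icc 0 T', ∀ᵐ x, ‖w t x‖ ≤ R := by
    intro t ht
    filter_upwards [hwu t ht] with x hx
    rw [← hx]
    exact (c0_apply_le _ _).trans (hb t ht)
  exact hTm T' (Lg α R) ψ _ _ _ _ _ (isBlowupPath_of_solution hz hα hR hγ0.le hD hK₁ hK₂ hp hψ
    hψ1 hψ2 hψA hT'0 hwc hwR hw)

end Pool.Agent.Results.MP_b98ad5_an.LargeGammaBlowup
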